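import Pool.Agent.N520.RO.Stm

/-!
# RO/SPL: projections adapted to a flag; RO/BDD: bounded diagonal blocks of commutators
-/

set_option autoImplicit false

open Set Filter Topology

namespace Pool.Agent.N539.RO

open Pool.Agent.N520.RO

/-! ## SPL -/

/-- products of projections -/
noncomputable def Pr {V : Type} [NormedAddCommGroup V] [NormedSpace ℝ V] (Q : ℕ → V →L[ℝ] V)
    (m : ℕ) : ℕ → V →L[ℝ] V
  | 0 => 1
  | k + 1 => Q (m - (k + 1)) * Pr Q m k

theorem t_spl : S_SPL := by
  intro V _ _ _ m S h0 hm hS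
  -- monotonicity
  have hmono : ∀ i j, i ≤ j → j ≤ m → S i ≤ S j := by
    intro i j hij
    induction j, hij using Nat.le_induction with
    | base => exact fun _ => le_rfl
    | succ j hj ih => exact fun hjm => (ih (by omega)).trans (hS j (by omega))
  -- projections
  have hQ : ∀ i, ∃ Q : V →L[ℝ] V, (∀ v, Q v ∈ S i) ∧ ∀ v ∈ S i, Q v = v := by
    intro i
    obtain ⟨T, hT⟩ := (S i).exists_isCompl
    refine ⟨LinearMap.toContinuousLinearMap
      ((S i).subtype.comp (Submodule.projectionOnto (S i) T hT)), fun v => ?_, fun v hv => ?_⟩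
    · exact (Submodule.projectionOnto (S i) T hT v).2
    · have := Submodule.projectionOnto_apply_left hT ⟨v, hv⟩
      show ((Submodule.projectionOnto (S i) T hT v : S i) : V) = v
      rw [this]
  choose Q hQ1 hQ2 using hQ
  obtain ⟨E, hE⟩ : ∃ E : ℕ → V →L[ℝ] V, E = fun i => Pr Q m (m - i) := ⟨_, rfl⟩
  have hEm : E m = 1 := by
    rw [hE]
    simp only [Nat.sub_self]
    rfl
  have hEs : ∀ i < m, E i = Q i * E (i + 1) := by
    intro i hi
    rw [hE]
    simp only
    have h1 : m - i = (m - (i + 1)) + 1 := by omega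
    rw [h1]
    show Q (m - (m - (i + 1) + 1)) * Pr Q m (m - (i + 1)) = _
    have h2 : m - (m - (i + 1) + 1) = i := by omega
    rw [h2]
  -- (a), (b) by downward induction
  have hab : ∀ k ≤ m, (∀ v, E (m - k) v ∈ S (m - k)) ∧ ∀ v ∈ S (m - k), E (m - k) v = v := by
    intro k
    induction k with
    | zero =>
      intro _
      rw [Nat.sub_zero, hEm, hm]
      exact ⟨fun v => trivial, fun v _ => rfl⟩
    | succ k ih =>
      intro hk
      obtain ⟨ih1, ih2⟩ := ih (by omega)
      have h1 : m - (k + 1) + 1 = m - k := by omega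
      have h2 := hEs (m - (k + 1)) (by omega)
      rw [h1] at h2
      rw [h2]
      refine ⟨fun v => hQ1 _ _, fun v hv => ?_⟩
      show Q (m - (k + 1)) (E (m - k) v) = v
      rw [ih2 v (hmono _ _ (by omega) (by omega) hv), hQ2 _ v hv]
  have ha : ∀ i ≤ m, ∀ v, E i v ∈ S i := by
    intro i hi v
    have := (hab (m - i) (by omega)).1 v
    rwa [Nat.sub_sub_self hi] at this
  have hb : ∀ i ≤ m, ∀ v ∈ S i, E i v = v := by
    intro i hi v hv
    have := (hab (m - i) (by omega)).2 v
    rw [Nat.sub_sub_self hi] at this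
    exact this hv
  have hE0 : E 0 = 0 := by
    refine ContinuousLinearMap.ext fun v => ?_
    have := ha 0 (Nat.zero_le _) v
    rw [h0] at this
    exact (Submodule.mem_bot ℝ).1 this
  -- products
  have hji : ∀ i j, i ≤ j → j ≤ m → E j * E i = E i := by
    intro i j hij hjm
    refine ContinuousLinearMap.ext fun v => ?_
    exact hb j hjm _ (hmono i j hij hjm (ha i (hij.trans hjm) v))
  have hij : ∀ j ≤ m, ∀ k ≤ j, E (j - k) * E j = E (j - k) := by
    intro j hj k
    induction k with
    | zero =>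
      intro _
      exact hji j j le_rfl hj
    | succ k ih =>
      intro hk
      have h1 : j - (k + 1) + 1 = j - k := by omega
      have h2 := hEs (j - (k + 1)) (by omega)
      rw [h1] at h2
      rw [h2, mul_assoc, ih (by omega)]
  have hij' : ∀ i j, i ≤ j → j ≤ m → E i * E j = E i := by
    intro i j h1 h2
    have := hij j h2 (j - i) (by omega)
    rwa [Nat.sub_sub_self h1] at this
  refine ⟨fun i => E (i + 1) - E i, ⟨?_, ?_⟩, ?_⟩
  · rw [Fin.sum_univ_eq_sum_range (fun i => E (i + 1) - E i) m, Finset.sum_range_sub, hEm, hE0,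
      sub_zero]
  · intro i j
    have hi := i.2
    have hj := j.2
    simp only [sub_mul, mul_sub]
    rcases lt_trichotomy (i : ℕ) (j : ℕ) with h | h | h
    · rw [if_neg (fun h' => by rw [h'] at h; exact lt_irrefl _ h), hij' _ _ (by omega) (by omega),
        hij' _ _ (by omega) (by omega), hij' _ _ (by omega) (by omega), hij' _ _ (by omega) (by omega)]
      simp
    · have h' : i = j := Fin.ext h
      subst h'
      have e1 : E (i + 1) * E (i + 1) = E (i + 1) := hij' _ _ le_rfl (by omega)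
      have e2 : E (i + 1) * E i = E i := hji _ _ (by omega) (by omega)
      have e3 : E i * E (i + 1) = E i := hij' _ _ (by omega) (by omega)
      have e4 : E i * E i = E i := hij' _ _ le_rfl (by omega)
      rw [if_pos rfl, e1, e2, e3, e4]
      simp
    · rw [if_neg (fun h' => by rw [h'] at h; exact lt_irrefl _ h), hji _ _ (by omega) (by omega),
        hji _ _ (by omega) (by omega), hji _ _ (by omega) (by omega), hji _ _ (by omega) (by omega)]
      simp
  · intro i hi v
    constructor
    · intro hv j hj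
      show E (j + 1) v - E j v = 0
      have hj2 := j.2
      rw [hb _ (by omega) v (hmono i _ (by omega) (by omega) hv),
        hb _ (by omega) v (hmono i _ (by omega) (by omega) hv), sub_self]
    · intro hv
      have h1 : ∀ k ≤ m - i, E (m - k) v = v := by
        intro k
        induction k with
        | zero =>
          intro _
          rw [Nat.sub_zero, hEm]
          rfl
        | succ k ih =>
          intro hk
          have h2 : E ((m - (k + 1)) + 1) v - E (m - (k + 1)) v = 0 :=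
            hv ⟨m - (k + 1), by omega⟩ (by show i ≤ m - (k + 1); omega)
          have h3 : m - (k + 1) + 1 = m - k := by omega
          rw [h3, ih (by omega)] at h2
          exact (sub_eq_zero.1 h2).symm
      have h4 := h1 (m - i) le_rfl
      rw [Nat.sub_sub_self hi] at h4
      rw [← h4]
      exact ha i hi v

/-! ## BDD -/

theorem det_bd {W : Type} [NormedAddCommGroup W] [NormedSpace ℝ W] [FiniteDimensional ℝ W] (C : ℝ) :
    ∃ K : ℝ, ∀ (c : ℝ) (b : W →L[ℝ] W), 0 < c → ‖b‖ ≤ C * c⁻¹ →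
      |c ^ Module.finrank ℝ W * LinearMap.det (b : W →ₗ[ℝ] W)| ≤ K := by
  have hcomp : IsCompact (Metric.closedBall (0 : W →L[ℝ] W) C) := by
    have : ProperSpace (W →L[ℝ] W) := FiniteDimensional.proper ℝ (W →L[ℝ] W)
    exact isCompact_closedBall _ _
  have hcont : Continuous fun b : W →L[ℝ] W => |LinearMap.det (b : W →ₗ[ℝ] W)| :=
    (ContinuousLinearMap.continuous_det (E := W) (𝕜 := ℝ)).abs
  obtain ⟨K, hK⟩ := hcomp.bddAbove_image hcont.continuousOn
  refine ⟨K, fun c b hc hb => ?_⟩
  have h1 : ‖c • b‖ ≤ C := by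
    rw [norm_smul, Real.norm_eq_abs, abs_of_pos hc]
    calc c * ‖b‖ ≤ c * (C * c⁻¹) := mul_le_mul_of_nonneg_left hb hc.le
      _ = C := by field_simp
  have h2 : |LinearMap.det ((c • b : W →L[ℝ] W) : W →ₗ[ℝ] W)| ≤ K :=
    hK ⟨c • b, mem_closedBall_zero_iff.2 h1, rfl⟩
  have h3 : LinearMap.det ((c • b : W →L[ℝ] W) : W →ₗ[ℝ] W) =
      c ^ Module.finrank ℝ W * LinearMap.det (b : W →ₗ[ℝ] W) :=
    LinearMap.det_smul c (b : W →ₗ[ℝ] W)
  rwa [h3] at h2

theorem t_bdd : S_BDD := by
  intro V _ _ _ Λ _ θ m π hsys hup hqc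
  obtain ⟨C, hC⟩ := hqc
  have hpp : ∀ i, π i * π i = π i := fun i => by
    rw [hsys.orth i i, if_pos rfl]
  -- it is enough to bound each block
  suffices h : ∀ i, ∃ C' : ℝ, ∀ l ∈ commutator Λ, ‖π i * (θ l : V →L[ℝ] V) * π i‖ ≤ C' by
    choose C' hC' using h
    obtain ⟨M, hM⟩ := (Set.finite_range C').bddAbove
    exact ⟨M, fun l hl i => (hC' i l hl).trans (hM ⟨i, rfl⟩)⟩
  intro i
  obtain ⟨A, hA⟩ : ∃ A : Λ → V →L[ℝ] V, A = fun l => π i * (θ l : V →L[ℝ] V) * π i := ⟨_, rfl⟩
  have hAmul : ∀ l l', A (l * l') = A l * A l' := by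
    intro l l'
    have h1 : A (l * l') = ∑ j, π i * (θ l : V →L[ℝ] V) * π j * ((θ l' : V →L[ℝ] V) * π i) := by
      rw [← Finset.sum_mul, ← Finset.mul_sum, hsys.sum, mul_one, hA]
      simp only [map_mul, Units.val_mul, mul_assoc]
    have h2 : ∀ j, j ≠ i → π i * (θ l : V →L[ℝ] V) * π j * ((θ l' : V →L[ℝ] V) * π i) = 0 := by
      intro j hj
      rcases lt_or_gt_of_ne hj with h3 | h3
      · rw [hup l i j h3, zero_mul]
      · have h4 : π j = π j * π j := (hpp j).symm
        rw [h4]
        have h5 : π i * (θ l : V →L[ℝ] V) * (π j * π j) * ((θ l' : V →L[ℝ] V) * π i) =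
            π i * (θ l : V →L[ℝ] V) * π j * (π j * (θ l' : V →L[ℝ] V) * π i) := by
          simp only [mul_assoc]
        rw [h5, hup l' j i h3, mul_zero]
    rw [h1, Finset.sum_eq_single i (fun j _ hj => h2 j hj) (fun h => absurd (Finset.mem_univ i) h), hA]
    simp only
    calc π i * (θ l : V →L[ℝ] V) * π i * ((θ l' : V →L[ℝ] V) * π i)
        = π i * (θ l : V →L[ℝ] V) * (π i * π i) * ((θ l' : V →L[ℝ] V) * π i) := by rw [hpp]
      _ = _ := by simp only [mul_assoc]
  have hA1 : A 1 = π i := by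
    rw [hA]
    simp only [map_one, Units.val_one, mul_one]
    exact hpp i
  obtain ⟨R, hR⟩ : ∃ R : Submodule ℝ V, R = LinearMap.range (π i : V →ₗ[ℝ] V) := ⟨_, rfl⟩
  have hAR : ∀ l v, A l v ∈ R := by
    intro l v
    rw [hR, hA]
    exact ⟨(θ l : V →L[ℝ] V) (π i v), rfl⟩
  have hRid : ∀ v ∈ R, π i v = v := by
    intro v hv
    rw [hR] at hv
    obtain ⟨w, rfl⟩ := hv
    exact congrArg (fun f : V →L[ℝ] V => f w) (hpp i)
  obtain ⟨B, hB⟩ : ∃ B : Λ → R →L[ℝ] R,
    ∀ l (x : R), ((B l x : R) : V) = A l x :=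
    ⟨fun l => ((A l).comp R.subtypeL).codRestrict R fun x => hAR l x, fun l x => rfl⟩
  have hB1 : B 1 = 1 := by
    refine ContinuousLinearMap.ext fun x => Subtype.ext ?_
    rw [hB, hA1, hRid _ x.2]
    rfl
  have hBmul : ∀ l l', B (l * l') = B l * B l' := by
    intro l l'
    refine ContinuousLinearMap.ext fun x => Subtype.ext ?_
    rw [hB, hAmul]
    show A l (A l' x) = ((B l (B l' x) : R) : V)
    rw [hB, hB]
  obtain ⟨f, hf⟩ : ∃ f : Λ →* ℝ, ∀ l, f l = LinearMap.det (B l : R →ₗ[ℝ] R) :=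
    ⟨{ toFun := fun l => LinearMap.det (B l : R →ₗ[ℝ] R)
       map_one' := by
         rw [hB1]
         exact LinearMap.det_id
       map_mul' := fun l l' => by
         rw [hBmul]
         exact LinearMap.det_comp (B l : R →ₗ[ℝ] R) (B l' : R →ₗ[ℝ] R) }, fun l => rfl⟩
  have hf1 : ∀ l ∈ commutator Λ, f l = 1 := by
    intro l hl
    have h1 := Abelianization.commutator_subset_ker f.toHomUnits hl
    have h2 : f.toHomUnits l = 1 := h1
    have h3 := congrArg (fun u : ℝˣ => (u : ℝ)) h2
    simpa using h3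
  -- the determinant is bounded on balls
  obtain ⟨K, hK⟩ := det_bd (W := R) C
  obtain ⟨d, hd⟩ : ∃ d, d = Module.finrank ℝ R := ⟨_, rfl⟩
  have hC0 : 0 ≤ C := by
    obtain ⟨c, hc, h1, -⟩ := hC 1 i
    have h2 : 0 ≤ C * c := (norm_nonneg _).trans h1
    by_contra hcon
    rw [not_le] at hcon
    nlinarith
  refine ⟨C * max 1 K, fun l hl => ?_⟩
  obtain ⟨c, hc, h1, h2⟩ := hC l i
  rcases Nat.eq_zero_or_pos d with hd0 | hd0
  · -- the block is trivial
    have hRb : ∀ x : R, x = 0 := by
      have : Subsingleton R := Module.finrank_zero_iff.1 (hd.symm.trans hd0)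
      exact fun x => Subsingleton.elim x 0
    have h3 : π i * (θ l : V →L[ℝ] V) * π i = 0 := by
      refine ContinuousLinearMap.ext fun v => ?_
      have h4 := hAR l v
      have h5 : A l v = 0 := congrArg (Subtype.val) (hRb ⟨A l v, h4⟩)
      rw [hA] at h5
      exact h5
    rw [h3, norm_zero]
    positivity
  · have h3 : ‖B l⁻¹‖ ≤ C * c⁻¹ := by
      refine ContinuousLinearMap.opNorm_le_bound _ (by positivity) fun x => ?_
      have h5 : ‖B l⁻¹ x‖ = ‖A l⁻¹ (x : V)‖ := by
        rw [← hB]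
        rfl
      rw [h5]
      refine ((A l⁻¹).le_opNorm _).trans ?_
      refine mul_le_mul_of_nonneg_right ?_ (norm_nonneg _)
      rw [hA]
      exact h2
    have h4 := hK c _ hc h3
    rw [← hf, ← hd] at h4
    rw [hf1 l⁻¹ (inv_mem hl), mul_one, abs_of_pos (pow_pos hc d)] at h4
    have h6 : c ≤ max 1 K := by
      rcases le_total c 1 with h7 | h7
      · exact h7.trans (le_max_left _ _)
      · have h8 : c ^ 1 ≤ c ^ d := pow_le_pow_right₀ h7 hd0
        rw [pow_one] at h8
        exact (h8.trans h4).trans (le_max_right _ _)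
    exact h1.trans (mul_le_mul_of_nonneg_left h6 hC0)

end Pool.Agent.N539.RO
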